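import Mathlib

/-!
# The countable direct sum of copies of `ℤ` is not algebraically recurrent

For the symmetric measure `μ` on `G = ⨁_ℤ ℤ` with `μ(± e_k) = 3 / (2 (k+3) (k+4))` (`k = 0, 1, 2, …`
an enumeration of the coordinates) let `M_N` be the largest coordinate used by the first `N` steps
of the random walk.  With positive probability, for every `N ≥ 1` the coordinate `M_N` has been used
by exactly one of the first `N` steps.  On this event `0` is not in the semigroup generated by
`X_1, X_2, …`.
-/

set_option autoImplicit false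

namespace Pool.Agent.Results.MP_eb99da_pr.NotAlgRecurrent

open MeasureTheory Finset
open scoped ENNReal

/-- The position after `n` steps of the walk with increments `ω 0, ω 1, …` (the problem's
`X_n = ζ_1 ζ_2 ⋯ ζ_n` with `ζ_{i+1} = ω i`), written additively. -/
def walk {G : Type} [AddGroup G] (ω : ℕ → G) (n : ℕ) : G := ((List.range n).map ω).sum

/-- The subsemigroup generated by `X_n, X_{n+1}, …`. -/
def semi {G : Type} [AddGroup G] (ω : ℕ → G) (n : ℕ) : AddSubsemigroup G :=
  AddSubsemigroup.closure {g | ∃ m, n ≤ m ∧ g = walk ω m}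

/-- `(G, μ)` is algebraically recurrent: for i.i.d. increments of law `μ` (canonical model: the
product measure on `ℕ → G`), for every `n ≥ 1` the semigroup generated by `X_n, X_{n+1}, …` is `G`
almost surely. -/
def PairAR (G : Type) [AddGroup G] (μ : PMF G) : Prop :=
  letI : MeasurableSpace G := ⊤
  ∀ n : ℕ, 1 ≤ n → ∀ᵐ ω ∂(Measure.infinitePi (fun _ : ℕ => μ.toMeasure)), semi ω n = ⊤

/-- `G` is algebraically recurrent: `(G, μ)` is so for every symmetric probability `μ` whose
support generates `G` as a group. -/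
def GroupAR (G : Type) [AddGroup G] : Prop :=
  ∀ μ : PMF G, (∀ g, μ g = μ (-g)) → AddSubgroup.closure μ.support = ⊤ → PairAR G μ

/-! ### The law of one step -/

/-- mass of `± e_k` -/
noncomputable def w (k : ℕ) : ℝ≥0∞ := ENNReal.ofReal (3 / ((k + 3) * (k + 4)))

lemma hasSum_real (n : ℕ) :
    ∑ k ∈ range n, (3 / (((k : ℝ) + 3) * (k + 4))) = 1 - 3 / (n + 3) := by
  induction n with
  | zero => norm_num
  | succ n ih =>
    rw [sum_range_succ, ih]
    push_cast
    field_simp
    ring

lemma sum_w (n : ℕ) : ∑ k ∈ range n, w k = ENNReal.ofReal (1 - 3 / (n + 3)) := by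
  rw [← hasSum_real, ENNReal.ofReal_sum_of_nonneg]
  · rfl
  · intro i _
    positivity

lemma tsum_w : ∑' k, w k = 1 := by
  have h1 : Filter.Tendsto (fun n : ℕ => ∑ k ∈ range n, w k) Filter.atTop (nhds (∑' k, w k)) :=
    ENNReal.tendsto_nat_tsum w
  have h2 : Filter.Tendsto (fun n : ℕ => ∑ k ∈ range n, w k) Filter.atTop (nhds 1) := by
    simp_rw [sum_w]
    rw [show (1 : ℝ≥0∞) = ENNReal.ofReal (1 - 0) by simp]
    apply ENNReal.tendsto_ofReal
    apply Filter.Tendsto.const_sub
    have : Filter.Tendsto (fun n : ℕ => (n : ℝ) + 3) Filter.atTop Filter.atTop :=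
      Filter.tendsto_atTop_add_const_right _ _ tendsto_natCast_atTop_atTop
    exact this.const_div_atTop 3
  exact tendsto_nhds_unique h1 h2

/-- the law of `(k, sign)` -/
noncomputable def lawQ : PMF (ℕ × Bool) :=
  ⟨fun x => w x.1 / 2, by
    have h : ∑' x : ℕ × Bool, w x.1 / 2 = 1 := by
      rw [ENNReal.tsum_prod']
      simp only [tsum_fintype, Fintype.sum_bool]
      simp_rw [ENNReal.add_halves]
      exact tsum_w
    rw [← h]
    exact ENNReal.summable.hasSum⟩

/-- the group -/
abbrev G := ℤ →₀ ℤ

/-- enumeration of the coordinates -/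
def en : ℕ ≃ ℤ := Equiv.intEquivNat.symm

/-- the step `± e_k` -/
noncomputable def stp (x : ℕ × Bool) : G := Finsupp.single (en x.1) (if x.2 then 1 else -1)

/-- the law of one step -/
noncomputable def law : PMF G := lawQ.map stp

lemma neg_stp (x : ℕ × Bool) : -stp x = stp (x.1, !x.2) := by
  rcases x with ⟨k, _ | _⟩ <;> simp [stp]

lemma lawQ_flip : lawQ.map (fun x => (x.1, !x.2)) = lawQ := by
  ext y
  rw [PMF.map_apply, tsum_eq_single (y.1, !y.2)]
  · simp [lawQ]
    rfl
  · rintro ⟨k, b⟩ hne
    rw [if_neg]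
    intro h
    apply hne
    rw [h]
    simp

lemma law_symm (g : G) : law g = law (-g) := by
  have h : law = lawQ.map (fun x => -stp x) := by
    have : (fun x => -stp x) = stp ∘ (fun x : ℕ × Bool => (x.1, !x.2)) := by
      funext x
      exact neg_stp x
    rw [this, ← PMF.map_comp, lawQ_flip]
    rfl
  conv_rhs => rw [h]
  rw [law, PMF.map_apply, PMF.map_apply]
  apply tsum_congr
  intro x
  simp

lemma w_ne (k : ℕ) : w k ≠ 0 := by
  rw [w]
  simp only [ne_eq, ENNReal.ofReal_eq_zero, not_le]
  positivity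

lemma mem_support (x : ℕ × Bool) : stp x ∈ law.support := by
  rw [law, PMF.support_map]
  refine ⟨x, ?_, rfl⟩
  rw [PMF.mem_support_iff]
  have h := w_ne x.1
  change w x.1 / 2 ≠ 0
  simp [h]

lemma law_gen : AddSubgroup.closure law.support = ⊤ := by
  rw [eq_top_iff]
  intro g _
  induction g using Finsupp.induction_linear with
  | zero => exact zero_mem _
  | add f g hf hg => exact add_mem (hf trivial) (hg trivial)
  | single a b =>
    have h : Finsupp.single a b = b • stp (en.symm a, true) := by
      simp [stp]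
    rw [h]
    exact zsmul_mem (AddSubgroup.subset_closure (mem_support _)) b

/-! ### Deterministic part -/

lemma walk_zero (ω : ℕ → G) : walk ω 0 = 0 := by simp [walk]

lemma walk_succ (ω : ℕ → G) (n : ℕ) : walk ω (n + 1) = walk ω n + ω n := by
  simp [walk, List.range_succ]

/-- Elements of the semigroup are combinations of the positions. -/
lemma semi_form (ω : ℕ → G) (g : G) (hg : g ∈ semi ω 1) :
    ∃ (N : ℕ) (c : ℕ → ℕ), 1 ≤ N ∧ c N ≠ 0 ∧ (∀ m, N < m → c m = 0) ∧
      g = ∑ m ∈ range (N + 1), (c m) • walk ω m := by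
  unfold semi at hg
  induction hg using AddSubsemigroup.closure_induction with
  | mem x hx =>
    obtain ⟨m, hm, rfl⟩ := hx
    refine ⟨m, fun i => if i = m then 1 else 0, hm, by simp, ?_, ?_⟩
    · intro i hi
      simp [hi.ne']
    · simp
  | add x y _ _ hx hy =>
    obtain ⟨N, c, hN, hc, hcz, rfl⟩ := hx
    obtain ⟨N', c', hN', hc', hcz', rfl⟩ := hy
    refine ⟨max N N', fun i => c i + c' i, le_max_of_le_left hN, ?_, ?_, ?_⟩
    · rcases le_total N N' with h | h
      · rw [max_eq_right h]
        simp [hc']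
      · rw [max_eq_left h]
        simp [hc]
    · intro m hm
      simp only [Nat.add_eq_zero_iff]
      exact ⟨hcz m (lt_of_le_of_lt (le_max_left _ _) hm), hcz' m (lt_of_le_of_lt (le_max_right _ _) hm)⟩
    · simp_rw [add_smul, sum_add_distrib]
      congr 1
      · apply sum_subset
        · intro i hi
          simp only [mem_range] at hi ⊢
          have := le_max_left N N'
          omega
        · intro i _ hi
          simp only [mem_range, not_lt] at hi
          rw [hcz i (by omega), zero_smul]
      · apply sum_subset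
        · intro i hi
          simp only [mem_range] at hi ⊢
          have := le_max_right N N'
          omega
        · intro i _ hi
          simp only [mem_range, not_lt] at hi
          rw [hcz' i (by omega), zero_smul]

/-- If the first `N` steps use a coordinate exactly once, no combination with `c N > 0` vanishes. -/
lemma comb_ne (ω : ℕ → G) (x : ℕ → ℕ × Bool) (hx : ∀ i, ω i = stp (x i)) (N j : ℕ) (hj : j < N)
    (hu : ∀ i, i < N → i ≠ j → (x i).1 ≠ (x j).1) (c : ℕ → ℕ) (hc : c N ≠ 0) :
    ∑ m ∈ range (N + 1), (c m) • walk ω m ≠ 0 := by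
  have key : ∀ m, m ≤ N → walk ω m (en (x j).1) =
      if j < m then (if (x j).2 then 1 else -1) else 0 := by
    intro m
    induction m with
    | zero => intro _; simp [walk_zero]
    | succ m ih =>
      intro hm
      rw [walk_succ, Finsupp.add_apply, ih (by omega), hx m]
      by_cases hmj : m = j
      · subst hmj
        simp [stp]
      · have h1 := hu m (by omega) hmj
        rw [stp, Finsupp.single_apply, if_neg (fun h => h1 (en.injective h)), add_zero]
        by_cases h2 : j < m
        · rw [if_pos h2, if_pos (show j < m + 1 by omega)]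
        · rw [if_neg h2, if_neg (show ¬ j < m + 1 by omega)]
  intro h0
  have h1 := DFunLike.congr_fun h0 (en (x j).1)
  rw [Finsupp.finsetSum_apply] at h1
  have h2 : ∀ m ∈ range (N + 1), ((c m) • walk ω m) (en (x j).1) =
      (if (x j).2 then (1 : ℤ) else -1) * (if j < m then (c m : ℤ) else 0) := by
    intro m hm
    rw [Finsupp.smul_apply, key m (by simp at hm; omega)]
    split_ifs <;> simp
  rw [sum_congr rfl h2, ← mul_sum] at h1
  have h3 : (0 : ℤ) < ∑ m ∈ range (N + 1), (if j < m then (c m : ℤ) else 0) := by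
    apply sum_pos' (fun m _ => by split_ifs <;> positivity)
    refine ⟨N, by simp, ?_⟩
    rw [if_pos hj]
    have := Nat.pos_of_ne_zero hc
    exact_mod_cast this
  have h4 : (if (x j).2 then (1 : ℤ) else -1) ≠ 0 := by split_ifs <;> norm_num
  simp only [Finsupp.coe_zero, Pi.zero_apply, mul_eq_zero] at h1
  rcases h1 with h1 | h1
  · exact h4 h1
  · exact h3.ne' h1

/-! ### The bad events -/

/-- steps with coordinate exactly `k` -/
def A (k : ℕ) : Set G := {g | ∃ b, g = stp (k, b)}

/-- steps with coordinate at most `k` -/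
def B (k : ℕ) : Set G := {g | ∃ x : ℕ × Bool, x.1 ≤ k ∧ g = stp x}

/-- the steps with numbers `j` and `j + i + 1` both use the coordinate `k`, and all the earlier
steps use coordinates at most `k` -/
def bad (j i k : ℕ) : Set (ℕ → G) :=
  {ω | ω j ∈ A k ∧ ω (j + i + 1) ∈ A k ∧ ∀ m < j + i + 1, m ≠ j → ω m ∈ B k}

/-- some step is not of the form `± e_k` -/
def odd (i : ℕ) : Set (ℕ → G) := {ω | ∀ x, ω i ≠ stp x}

lemma good_not_mem (ω : ℕ → G) (h1 : ∀ i, ω ∉ odd i) (h2 : ∀ j i k, ω ∉ bad j i k) :
    semi ω 1 ≠ ⊤ := by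
  have h3 : ∀ i, ∃ x, ω i = stp x := by
    intro i
    by_contra h
    push Not at h
    exact h1 i h
  choose x hx using h3
  intro htop
  have h0 : (0 : G) ∈ semi ω 1 := by rw [htop]; trivial
  obtain ⟨N, c, hN, hc, _, h5⟩ := semi_form ω 0 h0
  obtain ⟨j, hj, hmax⟩ := exists_max_image (range N) (fun i => (x i).1) ⟨0, by simp; omega⟩
  simp only [mem_range] at hj hmax
  have h2' : ∀ a b : ℕ, a < b → b < N → (x a).1 = (x j).1 → (x b).1 = (x j).1 → False := by
    intro a b hab hb ha' hb'
    apply h2 a (b - a - 1) (x j).1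
    have hab' : a + (b - a - 1) + 1 = b := by omega
    refine ⟨⟨(x a).2, ?_⟩, ?_, ?_⟩
    · rw [hx a, ← ha']
    · rw [hab']
      exact ⟨(x b).2, by rw [hx b, ← hb']⟩
    · intro m hm _
      rw [hab'] at hm
      exact ⟨x m, hmax m (by omega), hx m⟩
  have hu : ∀ i, i < N → i ≠ j → (x i).1 ≠ (x j).1 := by
    intro i hi hij he
    rcases lt_or_gt_of_ne hij with h | h
    · exact h2' i j h hj he rfl
    · exact h2' j i h hi rfl he
  exact comb_ne ω x hx N j hj hu c hc h5.symm

/-! ### Probabilities -/

section Prob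

local instance instMS : MeasurableSpace G := ⊤

local instance : DiscreteMeasurableSpace G := ⟨fun _ => trivial⟩

/-- law of the walk -/
noncomputable abbrev P : Measure (ℕ → G) := Measure.infinitePi (fun _ : ℕ => law.toMeasure)

lemma law_meas (s : Set G) : law.toMeasure s = ∑' x : ℕ × Bool, (stp ⁻¹' s).indicator lawQ x := by
  rw [law, PMF.toMeasure_apply_eq_toOuterMeasure, PMF.toOuterMeasure_map_apply,
    PMF.toOuterMeasure_apply]

lemma stp_inj : Function.Injective stp := by
  rintro ⟨a, b⟩ ⟨c, d⟩ h
  have h1 : a = c := by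
    by_contra hne
    have h2 := DFunLike.congr_fun h (en a)
    simp only [stp] at h2
    rw [Finsupp.single_apply, Finsupp.single_apply, if_pos rfl,
      if_neg (fun h => hne (en.injective h).symm)] at h2
    revert h2
    cases b <;> simp
  subst h1
  have h2 := DFunLike.congr_fun h (en a)
  simp only [stp] at h2
  rw [Finsupp.single_apply, Finsupp.single_apply, if_pos rfl, if_pos rfl] at h2
  revert h2
  cases b <;> cases d <;> simp

lemma meas_A (k : ℕ) : law.toMeasure (A k) = w k := by
  rw [law_meas, ENNReal.tsum_prod', tsum_eq_single k]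
  · have h : ∀ b, (stp ⁻¹' (A k)).indicator lawQ (k, b) = w k / 2 := by
      intro b
      rw [Set.indicator_of_mem]
      · rfl
      · exact ⟨b, rfl⟩
    simp only [tsum_fintype, Fintype.sum_bool, h]
    exact ENNReal.add_halves _
  · intro k' hk'
    have h : ∀ b, (stp ⁻¹' (A k)).indicator lawQ (k', b) = 0 := by
      intro b
      rw [Set.indicator_of_notMem]
      rintro ⟨b', hb'⟩
      exact hk' (congrArg Prod.fst (stp_inj hb'))
    simp [h]

lemma meas_B (k : ℕ) : law.toMeasure (B k) = ENNReal.ofReal (1 - 3 / (k + 4)) := by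
  have h1 := sum_w (k + 1)
  rw [show ((k + 1 : ℕ) : ℝ) + 3 = k + 4 by push_cast; ring] at h1
  rw [← h1, law_meas, ENNReal.tsum_prod', tsum_eq_sum (s := range (k + 1))]
  · apply sum_congr rfl
    intro i hi
    have h : ∀ b, (stp ⁻¹' (B k)).indicator lawQ (i, b) = w i / 2 := by
      intro b
      rw [Set.indicator_of_mem]
      · rfl
      · exact ⟨(i, b), by simp at hi; simp; omega, rfl⟩
    simp only [tsum_fintype, Fintype.sum_bool, h]
    exact ENNReal.add_halves _
  · intro i hi
    have h : ∀ b, (stp ⁻¹' (B k)).indicator lawQ (i, b) = 0 := by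
      intro b
      rw [Set.indicator_of_notMem]
      rintro ⟨x, hx, hx'⟩
      have := congrArg Prod.fst (stp_inj hx')
      simp at this hi
      omega
    simp [h]

lemma meas_odd (i : ℕ) : P (odd i) = 0 := by
  have h : odd i = Set.pi (({i} : Finset ℕ) : Set ℕ) (fun _ => {g : G | ∀ x, g ≠ stp x}) := by
    ext ω
    simp [odd]
  rw [h, P, Measure.infinitePi_pi _ (fun _ _ => MeasurableSet.of_discrete), prod_singleton, law_meas]
  rw [ENNReal.tsum_eq_zero]
  intro x
  rw [Set.indicator_of_notMem]
  intro hx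
  exact hx x rfl

lemma meas_bad (j i k : ℕ) :
    P (bad j i k) = w k * w k * ENNReal.ofReal (1 - 3 / (k + 4)) ^ j *
      ENNReal.ofReal (1 - 3 / (k + 4)) ^ i := by
  have h : bad j i k = Set.pi ((range (j + i + 2) : Finset ℕ) : Set ℕ)
      (fun m => if m = j ∨ m = j + i + 1 then A k else B k) := by
    ext ω
    simp only [bad, Set.mem_ofPred_eq, Set.mem_pi, coe_range, Set.mem_Iio]
    constructor
    · rintro ⟨h1, h2, h3⟩ m hm
      split_ifs with hc
      · rcases hc with rfl | rfl
        · exact h1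
        · exact h2
      · push Not at hc
        exact h3 m (by omega) hc.1
    · intro h
      refine ⟨by simpa using h j (by omega), by simpa using h (j + i + 1) (by omega), ?_⟩
      intro m hm hmj
      have := h m (by omega)
      rwa [if_neg (by omega)] at this
  rw [h, P, Measure.infinitePi_pi _ (fun _ _ => MeasurableSet.of_discrete)]
  rw [show j + i + 2 = (j + 1 + i) + 1 by ring, prod_range_succ, prod_range_add, prod_range_succ]
  have e1 : ∏ x ∈ range j, law.toMeasure (if x = j ∨ x = j + i + 1 then A k else B k) =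
      ENNReal.ofReal (1 - 3 / (k + 4)) ^ j := by
    rw [← card_range j, ← prod_const, card_range]
    apply prod_congr rfl
    intro x hx
    simp only [mem_range] at hx
    rw [if_neg (by omega), meas_B]
  have e2 : ∏ x ∈ range i, law.toMeasure (if j + 1 + x = j ∨ j + 1 + x = j + i + 1 then A k
      else B k) = ENNReal.ofReal (1 - 3 / (k + 4)) ^ i := by
    rw [← card_range i, ← prod_const, card_range]
    apply prod_congr rfl
    intro x hx
    simp only [mem_range] at hx
    rw [if_neg (by omega), meas_B]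
  rw [e1, e2, if_pos (Or.inl rfl), if_pos (Or.inr (by ring)), meas_A]
  ring

lemma sum_ij (k : ℕ) : ∑' j, ∑' i, P (bad j i k) = ENNReal.ofReal (1 / ((k + 3) * (k + 3))) := by
  simp_rw [meas_bad, ENNReal.tsum_mul_left, ENNReal.tsum_mul_right]
  rw [ENNReal.tsum_mul_left, ENNReal.tsum_geometric]
  have h1 : (1 : ℝ≥0∞) - ENNReal.ofReal (1 - 3 / (k + 4)) = ENNReal.ofReal (3 / (k + 4)) := by
    rw [← ENNReal.ofReal_one, ← ENNReal.ofReal_sub]
    · congr 1
      ring
    · rw [sub_nonneg, div_le_one (by positivity)]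
      have : (0 : ℝ) ≤ k := Nat.cast_nonneg k
      linarith
  rw [h1, ← ENNReal.ofReal_inv_of_pos (by positivity), w, ← ENNReal.ofReal_mul (by positivity),
    ← ENNReal.ofReal_mul (by positivity), ← ENNReal.ofReal_mul (by positivity)]
  congr 1
  field_simp

lemma sum_all : ∑' k, ∑' j, ∑' i, P (bad j i k) ≤ ENNReal.ofReal (1 / 2) := by
  simp_rw [sum_ij]
  apply ENNReal.tsum_le_of_sum_range_le
  intro n
  rw [← ENNReal.ofReal_sum_of_nonneg (fun i _ => by positivity)]
  apply ENNReal.ofReal_le_ofReal
  have h : ∑ i ∈ range n, 1 / (((i : ℝ) + 3) * (i + 3)) ≤ 1 / 2 - 1 / (n + 2) := by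
    induction n with
    | zero => norm_num
    | succ n ih =>
      rw [sum_range_succ]
      have : 1 / (((n : ℝ) + 3) * (n + 3)) ≤ 1 / (n + 2) - 1 / (n + 3) := by
        rw [div_sub_div _ _ (by positivity) (by positivity), div_le_div_iff₀ (by positivity)
          (by positivity)]
        nlinarith
      push_cast
      rw [show (n : ℝ) + 1 + 2 = n + 3 by ring]
      linarith
  have h2 : (0 : ℝ) ≤ 1 / (n + 2) := by positivity
  linarith

end Prob

/-- The group `⨁_ℤ ℤ` is not algebraically recurrent. -/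
theorem result : ¬ GroupAR (ℤ →₀ ℤ) := by
  intro h
  have h1 := h law law_symm law_gen 1 le_rfl
  let _ : MeasurableSpace G := ⊤
  have h2 : P {ω | ¬ semi ω 1 = ⊤} = 0 := h1
  have h3 : (Set.univ : Set (ℕ → G)) ⊆ {ω | ¬ semi ω 1 = ⊤} ∪ ((⋃ i, odd i) ∪
      ⋃ k, ⋃ j, ⋃ i, bad j i k) := by
    intro ω _
    by_cases hg : (∀ i, ω ∉ odd i) ∧ (∀ j i k, ω ∉ bad j i k)
    · exact Or.inl (good_not_mem ω hg.1 hg.2)
    · right
      rw [not_and_or] at hg
      rcases hg with hg | hg
      · left
        push Not at hg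
        obtain ⟨i, hi⟩ := hg
        exact Set.mem_iUnion.2 ⟨i, hi⟩
      · right
        push Not at hg
        obtain ⟨j, i, k, hi⟩ := hg
        simp only [Set.mem_iUnion]
        exact ⟨k, j, i, hi⟩
  have h4 : P (⋃ i, odd i) = 0 := by
    rw [measure_iUnion_null_iff]
    exact meas_odd
  have h5 : P (⋃ k, ⋃ j, ⋃ i, bad j i k) ≤ ENNReal.ofReal (1 / 2) := by
    refine le_trans (measure_iUnion_le _) (le_trans ?_ sum_all)
    apply ENNReal.tsum_le_tsum
    intro k
    refine le_trans (measure_iUnion_le _) ?_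
    apply ENNReal.tsum_le_tsum
    intro j
    exact measure_iUnion_le _
  have h6 : (1 : ℝ≥0∞) ≤ ENNReal.ofReal (1 / 2) := by
    calc (1 : ℝ≥0∞) = P Set.univ := (measure_univ).symm
      _ ≤ P ({ω | ¬ semi ω 1 = ⊤} ∪ ((⋃ i, odd i) ∪ ⋃ k, ⋃ j, ⋃ i, bad j i k)) :=
        measure_mono h3
      _ ≤ P {ω | ¬ semi ω 1 = ⊤} + P ((⋃ i, odd i) ∪ ⋃ k, ⋃ j, ⋃ i, bad j i k) :=
        measure_union_le _ _
      _ ≤ 0 + (P (⋃ i, odd i) + P (⋃ k, ⋃ j, ⋃ i, bad j i k)) := by
        rw [h2]
        gcongr
        exact measure_union_le _ _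
      _ ≤ ENNReal.ofReal (1 / 2) := by
        rw [h4, zero_add, zero_add]
        exact h5
  rw [← ENNReal.ofReal_one, ENNReal.ofReal_le_ofReal_iff (by norm_num)] at h6
  norm_num at h6

end Pool.Agent.Results.MP_eb99da_pr.NotAlgRecurrent
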